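import Pool.Agent.Helper35.SHQ.Sheet

/-! Project SHQ, row TOP: `be ≥ 1 / z` gives an infinite `F`. -/

set_option autoImplicit false

namespace SHQ
open scoped ENNReal

theorem TOP_valC (o : Om) (b : Fin 3) (j : ℕ) :
    ValC o b (fix (List.replicate j b)) 1 = o.be ^ j := by
  induction j with
  | zero => simp [fix, ValC]
  | succ j ih =>
    rw [List.replicate_succ]
    simp only [fix, ValC]
    rw [ih, pow_succ, mul_comm]
    simp [w]

theorem st_TOP (h : ST_GR) : ST_TOP := by
  rintro z o hz hb ⟨c, hc, hl⟩ g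
  obtain ⟨h1, -, -, -, -, -, h7, -⟩ := h z
  have key : ∀ j : ℕ, z ^ 2 * c ≤ z ^ (j + 1 + 1) *
      G z g (Tr.nil.app (fix (List.replicate (j + 1) (g + 1)))) := by
    intro j
    have e1 := (hl (fix (List.replicate (j + 1) (g + 1)))).trans
      (h1 g (fix (List.replicate (j + 1) (g + 1))))
    have e2 : ValS o (fix (List.replicate (j + 1) (g + 1))) 1 = o.be ^ j := by
      rw [List.replicate_succ]
      simp only [fix, ValS]
      exact TOP_valC o (g + 1) j
    rw [e2] at e1
    calc z ^ 2 * c = z ^ 2 * c * 1 := (mul_one _).symm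
      _ ≤ z ^ 2 * c * (z * o.be) ^ j := by
        gcongr
        exact one_le_pow₀ hb
      _ = z ^ (j + 1 + 1) * (c * o.be ^ j) := by rw [mul_pow]; ring
      _ ≤ _ := by
        simp only [Tr.app]
        gcongr
  have h2 : ∑' _ : ℕ, z ^ 2 * c = ⊤ :=
    ENNReal.tsum_const_eq_top_of_ne_zero (mul_ne_zero (pow_ne_zero 2 hz) hc)
  have h3 : ∑' _ : ℕ, z ^ 2 * c ≤ ∑' j : ℕ, z ^ (j + 1) *
      G z g (Tr.nil.app (fix (List.replicate j (g + 1)))) :=
    (ENNReal.tsum_le_tsum key).trans
      (ENNReal.tsum_comp_le_tsum_of_injective (f := fun j : ℕ => j + 1)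
        (fun a b hab => Nat.succ_injective hab)
        (fun j => z ^ (j + 1) * G z g (Tr.nil.app (fix (List.replicate j (g + 1))))))
  rw [h2] at h3
  exact top_le_iff.1 (h3.trans (h7 g .nil))

end SHQ
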